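import Pool.Agent.V11126.LapSpread

namespace Pool.Agent.Results.MP_6838a0_co.SpreadGap

open Pool.Agent.V11126.LapSpread

lemma quad_form {V : Type*} [Fintype V] (A : V → V → Prop) (hb : IsBalanced A) (x : V → ℝ)
    (hx : ∑ i, x i = 0) : x ⬝ᵥ (Matrix.mulVec (lap A) x) = Fintype.card V / 2 * ∑ i, x i ^ 2
      + (1 / 4) * ∑ i, ∑ j, (b A i j - 1) * (x i - x j) ^ 2 := by
  rw [quad_balanced A hb]
  have h1 : ∑ i, ∑ j, b A i j * (x i - x j) ^ 2 = ∑ i, ∑ j, (x i - x j) ^ 2
      + ∑ i, ∑ j, (b A i j - 1) * (x i - x j) ^ 2 := by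
    rw [← Finset.sum_add_distrib]
    refine Finset.sum_congr rfl fun i _ => ?_
    rw [← Finset.sum_add_distrib]
    refine Finset.sum_congr rfl fun j _ => ?_
    ring
  rw [h1, sum_sq_diff x hx]
  ring

/-- **Gap in the Laplacian spread.** No balanced digraph of order `n ≥ 2` has a Laplacian spread
strictly between `0` and `1`. -/
theorem result {V : Type*} [Fintype V] (A : V → V → Prop) (hirr : ∀ v, ¬ A v v)
    (hb : IsBalanced A) (hn : 2 ≤ Fintype.card V) : ¬ (0 < spread A ∧ spread A < 1) := by
  classical
  rintro ⟨hs0, hs1⟩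
  rcases structure_le_one A hirr hb hs1.le hn with ⟨c, hc⟩ | ⟨h4, heven, σ, hσ, -, hpart⟩
  · rw [spread_const A hb c hc] at hs0
    exact lt_irrefl _ hs0
  · have hσ2 : σ ^ 2 = 1 := by rcases hσ with rfl | rfl <;> norm_num
    have hσ0 : σ ≠ 0 := by rcases hσ with rfl | rfl <;> norm_num
    obtain ⟨i0⟩ : Nonempty V := Fintype.card_pos_iff.1 (by omega)
    obtain ⟨j0, hj0, hbij, hi0u⟩ := hpart i0
    -- uniqueness of partners
    have huniq : ∀ i j, j ≠ i → b A i j ≠ 1 → ∀ k, k ≠ i → k ≠ j → b A i k = 1 := by
      intro i j hji hb1 k hki hkj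
      obtain ⟨p, hp, -, hpu⟩ := hpart i
      have hjp : j = p := by
        by_contra h
        exact hb1 (hpu j hji h)
      subst hjp
      exact hpu k hki hkj
    have hbne : b A i0 j0 ≠ 1 := by rw [hbij]; intro h; exact hσ0 (by linarith)
    have hbne' : b A j0 i0 ≠ 1 := by rw [b_comm]; exact hbne
    have hj0u := huniq j0 i0 (Ne.symm hj0) hbne'
    -- if b i k ≠ 1 then i, k are both in {i0, j0} or both outside
    have hmatch : ∀ i k, k ≠ i → b A i k ≠ 1 →
        (i = i0 ∧ k = j0) ∨ (i = j0 ∧ k = i0) ∨ ((i ≠ i0 ∧ i ≠ j0) ∧ (k ≠ i0 ∧ k ≠ j0)) := by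
      intro i k hki hbik
      by_cases h1 : i = i0
      · subst h1
        left
        refine ⟨rfl, ?_⟩
        by_contra h
        exact hbik (hi0u k hki h)
      by_cases h2 : i = j0
      · subst h2
        right; left
        refine ⟨rfl, ?_⟩
        by_contra h
        exact hbik (hj0u k hki h)
      right; right
      refine ⟨⟨h1, h2⟩, ?_, ?_⟩
      · rintro rfl
        apply hbik
        rw [b_comm]
        exact hi0u i h1 h2
      · rintro rfl
        apply hbik
        rw [b_comm]
        exact hj0u i h2 h1
    have hn4 : (4 : ℝ) ≤ Fintype.card V := by exact_mod_cast h4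
    set n : ℝ := (Fintype.card V : ℝ) with hnn
    -- first test vector
    set x : V → ℝ := fun i => (if i = i0 then 1 else 0) - (if i = j0 then 1 else 0) with hx
    have hx0 : ∑ i, x i = 0 := by simp [hx]
    have hx2 : ∑ i, x i ^ 2 = 2 := by
      have : ∀ i, x i ^ 2 = (if i = i0 then (1 : ℝ) else 0) + (if i = j0 then (1 : ℝ) else 0) := by
        intro i
        simp only [hx]
        by_cases h1 : i = i0
        · subst h1; simp [Ne.symm hj0]
        · by_cases h2 : i = j0
          · subst h2; simp [hj0]
          · simp [h1, h2]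
      rw [Finset.sum_congr rfl fun i _ => this i, Finset.sum_add_distrib]
      simp; norm_num
    have hxq : ∑ i, ∑ j, (b A i j - 1) * (x i - x j) ^ 2 = 8 * σ := by
      have : ∀ i j, (b A i j - 1) * (x i - x j) ^ 2
          = (if i = i0 then (if j = j0 then 4 * σ else 0) else 0)
            + (if i = j0 then (if j = i0 then 4 * σ else 0) else 0) := by
        intro i j
        by_cases hij : j = i
        · subst hij
          by_cases h1 : j = i0
          · subst h1; simp [Ne.symm hj0]
          · simp [h1]
        by_cases hb1 : b A i j = 1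
        · rw [hb1]
          have h1 : ¬ (i = i0 ∧ j = j0) := by
            rintro ⟨rfl, rfl⟩; exact hbne hb1
          have h2 : ¬ (i = j0 ∧ j = i0) := by
            rintro ⟨rfl, rfl⟩; exact hbne' hb1
          have e1 : (if i = i0 then (if j = j0 then 4 * σ else 0) else 0) = 0 := by
            split_ifs with a c
            · exact absurd ⟨a, c⟩ h1
            · rfl
            · rfl
          have e2 : (if i = j0 then (if j = i0 then 4 * σ else 0) else 0) = 0 := by
            split_ifs with a c
            · exact absurd ⟨a, c⟩ h2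
            · rfl
            · rfl
          rw [e1, e2]; ring
        · rcases hmatch i j hij hb1 with ⟨rfl, rfl⟩ | ⟨rfl, rfl⟩ | ⟨⟨h1, h2⟩, h3, h4⟩
          · rw [hbij]
            simp [hx, hj0, Ne.symm hj0]; ring
          · rw [b_comm, hbij]
            simp [hx, hj0, Ne.symm hj0]; ring
          · simp [hx, h1, h2, h3, h4]
      rw [Finset.sum_congr rfl fun i _ => Finset.sum_congr rfl fun j _ => this i j]
      simp only [Finset.sum_add_distrib]
      simp
      ring
    -- second test vector
    set z : V → ℝ := fun i => n * ((if i = i0 then 1 else 0) + (if i = j0 then 1 else 0)) - 2 with hz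
    have hz0 : ∑ i, z i = 0 := by
      simp only [hz]
      rw [Finset.sum_sub_distrib, ← Finset.mul_sum, Finset.sum_add_distrib]
      simp [← hnn]; ring
    have hz2 : ∑ i, z i ^ 2 = 2 * n * (n - 2) := by
      have : ∀ i, z i ^ 2 = (n ^ 2 - 4 * n) * ((if i = i0 then (1 : ℝ) else 0)
          + (if i = j0 then (1 : ℝ) else 0)) + 4 := by
        intro i
        simp only [hz]
        by_cases h1 : i = i0
        · subst h1; simp [Ne.symm hj0]; ring
        · by_cases h2 : i = j0
          · subst h2; simp [hj0]; ring
          · simp [h1, h2]; norm_num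
      rw [Finset.sum_congr rfl fun i _ => this i, Finset.sum_add_distrib, ← Finset.mul_sum,
        Finset.sum_add_distrib]
      simp [← hnn]; ring
    have hzq : ∑ i, ∑ j, (b A i j - 1) * (z i - z j) ^ 2 = 0 := by
      refine Finset.sum_eq_zero fun i _ => Finset.sum_eq_zero fun j _ => ?_
      by_cases hij : j = i
      · subst hij; simp
      by_cases hb1 : b A i j = 1
      · rw [hb1]; ring
      · rcases hmatch i j hij hb1 with ⟨rfl, rfl⟩ | ⟨rfl, rfl⟩ | ⟨⟨h1, h2⟩, h3, h4⟩
        · simp [hz, hj0, Ne.symm hj0]
        · simp [hz, hj0, Ne.symm hj0]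
        · simp [hz, h1, h2, h3, h4]
    have qx := quad_form A hb x hx0
    have qz := quad_form A hb z hz0
    rw [hx2, hxq] at qx
    rw [hz2, hzq] at qz
    have bx := quad_bounds A x hx0
    have bz := quad_bounds A z hz0
    rw [qx, hx2] at bx
    rw [qz, hz2] at bz
    rw [← hnn] at bx bz
    have hpos : 0 < 2 * n * (n - 2) := by
      have : 0 < n - 2 := by linarith
      positivity
    have hz1 : alpha A ≤ n / 2 := by
      have := bz.1
      by_contra hcon
      push Not at hcon
      nlinarith
    have hz2 : n / 2 ≤ beta A := by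
      have := bz.2
      by_contra hcon
      push Not at hcon
      nlinarith
    unfold spread at hs1
    rcases hσ with rfl | rfl
    · have := bx.2
      linarith
    · have := bx.1
      linarith

end Pool.Agent.Results.MP_6838a0_co.SpreadGap
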